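import Pool.Agent.Helper99.SZ.Stmts2
import Pool.Agent.Helper50.SZ.PHS

/-!
sz_mods PH2: the statement PHS with its explicit constant.
-/

set_option autoImplicit false

namespace Pool.Helper99.SZ

open NumberField Finset

theorem st_PH2 (h1 : ST_PHSa) (h2 : ST_SUF) (h3 : BK.ST_IDF) : ST_PH2 := by
  intro m C hC
  have hm0 : (0 : ℝ) ≤ m := Nat.cast_nonneg _
  have hone : (1 : ℝ) ≤ (10 * ((m : ℝ) + 1)) ^ m := one_le_pow₀ (by linarith)
  subst hC
  intro K _ _ hK P hinj hP κ hκ nn 𝔞 hspan A h ν ρ hh hdisc hA hN hν hρ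
  classical
  obtain ⟨ℓ, hℓ⟩ : ∃ ℓ : Fin m → ℝ, ∀ j, ℓ j = Real.log (Ideal.absNorm (P j)) :=
    ⟨_, fun j => rfl⟩
  have hℓ0 : ∀ j, 0 < ℓ j := fun j => by rw [hℓ]; exact phs_log_pos _ (hP j).1 (hP j).2
  have hb : ∀ j, P j ≠ ⊥ := fun j => (hP j).2
  obtain ⟨h𝔞, hnorm⟩ := phs_kappa P hb κ hκ nn 𝔞 hspan
  have hsumℓ : ∑ j, Real.log (Ideal.absNorm (P j)) = ∑ j, ℓ j :=
    sum_congr rfl fun j _ => (hℓ j).symm
  have hprodℓ : ∏ j, Real.log (Ideal.absNorm (P j)) = ∏ j, ℓ j :=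
    prod_congr rfl fun j _ => (hℓ j).symm
  have hSℓ : 0 ≤ ∑ j, ℓ j := sum_nonneg fun j _ => (hℓ0 j).le
  rw [hsumℓ] at hρ
  rw [hprodℓ]
  have hh0 : 0 < h := by linarith
  have hA0 : 0 < A := by linarith
  have hρ1 : 100000 * (A + h + ∑ j, ℓ j) ≤ ρ := by
    refine le_trans (mul_le_mul_of_nonneg_right ?_ (by linarith)) hρ
    linarith
  have hρ0 : 0 < ρ := by linarith
  have hρh : 100000 * h ≤ ρ := by linarith
  have hρA : 100000 * A ≤ ρ := by linarith
  have hfinTS := phs_fin h2 P hinj hP κ nn A ρ hA hρ0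
  refine ⟨hfinTS, ?_⟩
  obtain ⟨w0⟩ : Nonempty (InfinitePlace K) := inferInstance
  obtain ⟨M, hM⟩ : ∃ M : ℕ, M = ⌊ρ / (100 * h)⌋₊ := ⟨_, rfl⟩
  obtain ⟨k0, hk0⟩ : ∃ k0 : ℕ, k0 = ⌊ρ / (10 * A)⌋₊ := ⟨_, rfl⟩
  obtain ⟨B, hB⟩ : ∃ B : Fin m → ℕ, ∀ j, B j = ⌊ρ / (10 * ((m : ℝ) + 1) * ℓ j)⌋₊ :=
    ⟨_, fun j => rfl⟩
  have hM1 : (M : ℝ) * (100 * h) ≤ ρ := by
    have h4 := Nat.floor_le (by positivity : 0 ≤ ρ / (100 * h))
    rw [← hM, le_div_iff₀ (by positivity)] at h4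
    exact h4
  have hM2 : ρ / (100 * h) ≤ M + 1 := by
    rw [hM]
    exact (Nat.lt_floor_add_one _).le
  have hk1 : (k0 : ℝ) * (10 * A) ≤ ρ := by
    have h4 := Nat.floor_le (by positivity : 0 ≤ ρ / (10 * A))
    rw [← hk0, le_div_iff₀ (by positivity)] at h4
    exact h4
  have hk2 : ρ / (10 * A) ≤ k0 + 1 := by
    rw [hk0]
    exact (Nat.lt_floor_add_one _).le
  have hden : ∀ j, 0 < 10 * ((m : ℝ) + 1) * ℓ j := fun j => by
    have := hℓ0 j
    positivity
  have hB1 : ∀ j, (B j : ℝ) * (10 * ((m : ℝ) + 1) * ℓ j) ≤ ρ := by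
    intro j
    have h4 := Nat.floor_le (div_nonneg hρ0.le (hden j).le)
    rw [← hB, le_div_iff₀ (hden j)] at h4
    exact h4
  have hB2 : ∀ j, ρ / (10 * ((m : ℝ) + 1) * ℓ j) ≤ B j + 1 := by
    intro j
    rw [hB]
    exact (Nat.lt_floor_add_one _).le
  have hBℓ : ∀ j, (B j : ℝ) * ℓ j ≤ ρ / (10 * ((m : ℝ) + 1)) := by
    intro j
    rw [le_div_iff₀ (by positivity)]
    have := hB1 j
    linarith
  obtain ⟨a, ha⟩ : ∃ a : ℝ, a = Real.log (Ideal.absNorm 𝔞) := ⟨_, rfl⟩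
  have ha0 : 0 ≤ a := by
    rw [ha]
    apply Real.log_nonneg
    have : Ideal.absNorm 𝔞 ≠ 0 := by
      rw [Ne, Ideal.absNorm_eq_zero_iff]
      exact h𝔞
    have h5 : 1 ≤ Ideal.absNorm 𝔞 := by omega
    exact_mod_cast h5
  have haA : a ≤ A := by rw [ha]; exact hN
  rw [← ha] at hnorm
  have hnorm' : Real.log |(Algebra.norm ℤ κ : ℝ)| = a + ∑ j, (nn j : ℝ) * ℓ j := by
    rw [hnorm]
    congr 1
    exact sum_congr rfl fun j _ => by rw [hℓ]
  -- the grid
  obtain ⟨nr, hnr⟩ : ∃ nr : ({w : InfinitePlace K // w ≠ w0} → Fin (M + 1)) →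
      {w : InfinitePlace K // w ≠ w0} → ℝ, ∀ x v, nr x v = ((x v : ℕ) : ℝ) := ⟨_, fun x v => rfl⟩
  obtain ⟨e, he⟩ : ∃ e : (({w : InfinitePlace K // w ≠ w0} → Fin (M + 1)) × Fin (k0 + 1) ×
      (∀ j : Fin m, Fin (B j + 1))) → Fin m → ℕ,
      ∀ x j, e x j = (x.2.1 : ℕ) * nn j + (x.2.2 j : ℕ) := ⟨_, fun x j => rfl⟩
  have key : ∀ x : ({w : InfinitePlace K // w ≠ w0} → Fin (M + 1)) × Fin (k0 + 1) ×
      (∀ j : Fin m, Fin (B j + 1)),
      ∃ c : 𝓞 K, c ≠ 0 ∧ (∀ w : InfinitePlace K, |Real.log (w (c : K)) -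
        (BK.ph_t w0 h inferInstance (nr x.1) w +
          ((x.2.1 : ℕ) : ℝ) * (Real.log (w (κ : K)) - a / 3) +
          (∑ j, ((x.2.2 j : ℕ) : ℝ) * ℓ j) / 3)| ≤ 3 * h) ∧
      ∃ J ∈ BK.ID K (2 * Real.sqrt |(NumberField.discr K : ℝ)|),
        Ideal.span {c} = (∏ j, P j ^ e x j) * J := by
    intro x
    have hI : ∏ j, P j ^ e x j ≠ ⊥ := by
      have : ∏ j, P j ^ e x j ≠ 0 := prod_ne_zero_iff.2 fun j _ => pow_ne_zero _ (hb j)
      exact this
    refine h1 K hK h hh hdisc _ hI (fun w => BK.ph_t w0 h inferInstance (nr x.1) w +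
          ((x.2.1 : ℕ) : ℝ) * (Real.log (w (κ : K)) - a / 3) +
          (∑ j, ((x.2.2 j : ℕ) : ℝ) * ℓ j) / 3) ?_
    have e1 := BK.ph_t_sum w0 h (nr x.1)
    have e2 := BK.ph_log_norm κ hκ
    have e3 := BK.ph_mult_sum hK
    rw [hnorm'] at e2
    have e4 : ∑ w : InfinitePlace K, (InfinitePlace.mult w : ℝ) *
        (BK.ph_t w0 h inferInstance (nr x.1) w +
          ((x.2.1 : ℕ) : ℝ) * (Real.log (w (κ : K)) - a / 3) +
          (∑ j, ((x.2.2 j : ℕ) : ℝ) * ℓ j) / 3) =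
        ∑ w : InfinitePlace K, (InfinitePlace.mult w : ℝ) *
          BK.ph_t w0 h inferInstance (nr x.1) w +
        ((x.2.1 : ℕ) : ℝ) * (∑ w : InfinitePlace K,
          (InfinitePlace.mult w : ℝ) * Real.log (w (κ : K)) -
        (∑ w : InfinitePlace K, (InfinitePlace.mult w : ℝ)) * (a / 3)) +
        (∑ w : InfinitePlace K, (InfinitePlace.mult w : ℝ)) *
          ((∑ j, ((x.2.2 j : ℕ) : ℝ) * ℓ j) / 3) := by
      rw [sum_mul, ← sum_sub_distrib, mul_sum, ← sum_add_distrib, sum_mul, ← sum_add_distrib]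
      exact sum_congr rfl fun w _ => by ring
    rw [e4, e1, e2, e3, phs_log_prod P hb]
    have e5 : ∑ j, (e x j : ℝ) * Real.log (Ideal.absNorm (P j)) =
        ((x.2.1 : ℕ) : ℝ) * (∑ j, (nn j : ℝ) * ℓ j) + ∑ j, ((x.2.2 j : ℕ) : ℝ) * ℓ j := by
      rw [mul_sum, ← sum_add_distrib]
      refine sum_congr rfl fun j _ => ?_
      rw [he, ← hℓ]
      push_cast
      ring
    rw [e5]
    ring
  choose c hc0 hc1 J hJ hsp using key
  have hID := h3 K (2 * Real.sqrt |(NumberField.discr K : ℝ)|)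
  have hsuf3 := (h2 K m P hinj hP).2.2.1
  -- fibres
  have hfib : ∀ J0 ∈ hID.toFinset, (univ.filter (fun x => J x = J0)).card ≤
      (TS P κ nn A ρ).ncard := by
    intro J0 _
    rcases (univ.filter (fun x => J x = J0)).eq_empty_or_nonempty with hem | ⟨z, hz⟩
    · rw [hem, card_empty]
      exact Nat.zero_le _
    · rw [mem_filter] at hz
      have hz1 := hz.2
      have hcK : ∀ x, (c x : K) ≠ 0 := fun x h0 => hc0 x (RingOfIntegers.coe_eq_zero_iff.1 h0)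
      have hJ0 : J0 ≠ ⊥ := by
        rintro rfl
        have h5 := hsp z
        rw [hz1, Ideal.mul_bot, Ideal.span_singleton_eq_bot] at h5
        exact hc0 z h5
      obtain ⟨u, hu⟩ : ∃ u : (({w : InfinitePlace K // w ≠ w0} → Fin (M + 1)) × Fin (k0 + 1) ×
          (∀ j : Fin m, Fin (B j + 1))) → Kˣ, ∀ x, (u x : K) * (c x : K) = (c z : K) := by
        refine ⟨fun x => Units.mk0 ((c z : K) / (c x : K)) (div_ne_zero (hcK z) (hcK x)), ?_⟩
        intro x
        rw [Units.val_mk0, div_mul_cancel₀ _ (hcK x)]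
      have hSU : ∀ x, J x = J0 → SU P (fun j => (e z j : ℤ) - (e x j : ℤ)) (u x) := by
        intro x hx
        refine phs_su P hb J0 hJ0 (e z) (e x) (c z) (c x) (u x) ?_ ?_ (hu x)
        · rw [hsp z, hz1]
        · rw [hsp x, hx]
      rw [Set.ncard_eq_toFinset_card _ hfinTS]
      refine card_le_card_of_injOn (fun x => (((x.2.1 : ℕ) : ℤ) - ((z.2.1 : ℕ) : ℤ), u x)) ?_ ?_
      · intro x hx
        have hx1 : J x = J0 := (mem_filter.1 hx).2
        rw [Set.Finite.coe_toFinset]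
        have hk : |((x.2.1 : ℕ) : ℝ) - ((z.2.1 : ℕ) : ℝ)| ≤ k0 := by
          have b1 : ((x.2.1 : ℕ) : ℝ) ≤ k0 := by exact_mod_cast Nat.lt_succ_iff.1 x.2.1.2
          have b2 : ((z.2.1 : ℕ) : ℝ) ≤ k0 := by exact_mod_cast Nat.lt_succ_iff.1 z.2.1.2
          have b3 : (0 : ℝ) ≤ ((x.2.1 : ℕ) : ℝ) := Nat.cast_nonneg _
          have b4 : (0 : ℝ) ≤ ((z.2.1 : ℕ) : ℝ) := Nat.cast_nonneg _
          rw [abs_le]
          constructor <;> linarith
        have hbj : ∀ j, |((z.2.2 j : ℕ) : ℝ) - ((x.2.2 j : ℕ) : ℝ)| ≤ B j := by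
          intro j
          have b1 : ((x.2.2 j : ℕ) : ℝ) ≤ B j := by exact_mod_cast Nat.lt_succ_iff.1 (x.2.2 j).2
          have b2 : ((z.2.2 j : ℕ) : ℝ) ≤ B j := by exact_mod_cast Nat.lt_succ_iff.1 (z.2.2 j).2
          have b3 : (0 : ℝ) ≤ ((x.2.2 j : ℕ) : ℝ) := Nat.cast_nonneg _
          have b4 : (0 : ℝ) ≤ ((z.2.2 j : ℕ) : ℝ) := Nat.cast_nonneg _
          rw [abs_le]
          constructor <;> linarith
        refine ⟨?_, ?_, fun j => (e z j : ℤ) - (e x j : ℤ), hSU x hx1, ?_⟩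
        · show |((((x.2.1 : ℕ) : ℤ) - ((z.2.1 : ℕ) : ℤ) : ℤ) : ℝ)| * A ≤ ρ
          push_cast
          have b5 := mul_le_mul_of_nonneg_right hk hA0.le
          linarith
        · intro σ
          show |Real.log ‖σ ((u x : Kˣ) : K)‖ +
            ((((x.2.1 : ℕ) : ℤ) - ((z.2.1 : ℕ) : ℤ) : ℤ) : ℝ) * Real.log ‖σ (κ : K)‖| ≤ ρ
          push_cast
          have e1 : ∀ y : K, ‖σ y‖ = (InfinitePlace.mk σ) y := fun y => (InfinitePlace.apply σ y).symm
          rw [e1, e1]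
          set w := InfinitePlace.mk σ with hw
          have hcx := BK.ph_pos (c x) (hc0 x) w
          have hcz := BK.ph_pos (c z) (hc0 z) w
          have hune : w ((u x : Kˣ) : K) ≠ 0 := by
            rw [Ne, map_eq_zero]
            exact (u x).ne_zero
          have e2 : Real.log (w (c z : K)) = Real.log (w ((u x : Kˣ) : K)) +
              Real.log (w (c x : K)) := by
            rw [← hu x, map_mul, Real.log_mul hune hcx.ne']
          have f1 := hc1 x w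
          have f2 := hc1 z w
          have f3 := BK.ph_t_diff hK w0 h hh0.le (nr z.1) (nr x.1) M (Nat.cast_nonneg _) (by
            intro v
            rw [hnr, hnr]
            have b1 : ((x.1 v : ℕ) : ℝ) ≤ M := by exact_mod_cast Nat.lt_succ_iff.1 (x.1 v).2
            have b2 : ((z.1 v : ℕ) : ℝ) ≤ M := by exact_mod_cast Nat.lt_succ_iff.1 (z.1 v).2
            have b3 : (0 : ℝ) ≤ ((x.1 v : ℕ) : ℝ) := Nat.cast_nonneg _
            have b4 : (0 : ℝ) ≤ ((z.1 v : ℕ) : ℝ) := Nat.cast_nonneg _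
            rw [abs_le]
            constructor <;> linarith) w
          have f4 : |(((x.2.1 : ℕ) : ℝ) - ((z.2.1 : ℕ) : ℝ)) * (a / 3)| ≤ k0 * (A / 3) := by
            rw [abs_mul, abs_of_nonneg (by positivity : 0 ≤ a / 3)]
            exact mul_le_mul hk (by linarith) (by positivity) (Nat.cast_nonneg _)
          have f5 : |(∑ j, ((z.2.2 j : ℕ) : ℝ) * ℓ j) - ∑ j, ((x.2.2 j : ℕ) : ℝ) * ℓ j| ≤
              ρ / 10 := by
            rw [← sum_sub_distrib]
            have g1 : ∀ j, |((z.2.2 j : ℕ) : ℝ) * ℓ j - ((x.2.2 j : ℕ) : ℝ) * ℓ j| ≤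
                ρ / (10 * ((m : ℝ) + 1)) := by
              intro j
              rw [← sub_mul, abs_mul, abs_of_pos (hℓ0 j)]
              exact (mul_le_mul_of_nonneg_right (hbj j) (hℓ0 j).le).trans (hBℓ j)
            refine (abs_sum_le_sum_abs _ _).trans ((sum_le_sum fun j _ => g1 j).trans ?_)
            rw [sum_const, card_univ, Fintype.card_fin, nsmul_eq_mul, ← mul_div_assoc,
              div_le_div_iff₀ (by positivity) (by norm_num)]
            nlinarith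
          rw [abs_le] at f1 f2 f3 f4 f5 ⊢
          constructor <;> nlinarith
        · intro j
          have e6 : ((((fun j => (e z j : ℤ) - (e x j : ℤ)) j +
              (((x.2.1 : ℕ) : ℤ) - ((z.2.1 : ℕ) : ℤ)) * (nn j : ℤ) : ℤ)) : ℝ) =
              ((z.2.2 j : ℕ) : ℝ) - ((x.2.2 j : ℕ) : ℝ) := by
            simp only
            rw [he, he]
            push_cast
            ring
          show |((((fun j => (e z j : ℤ) - (e x j : ℤ)) j +
              (((x.2.1 : ℕ) : ℤ) - ((z.2.1 : ℕ) : ℤ)) * (nn j : ℤ) : ℤ)) : ℝ)| *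
              Real.log (Ideal.absNorm (P j)) ≤ ρ
          rw [e6, ← hℓ]
          have g2 := (mul_le_mul_of_nonneg_right (hbj j) (hℓ0 j).le).trans (hBℓ j)
          refine g2.trans ?_
          rw [div_le_iff₀ (by positivity)]
          nlinarith
      · intro x hx y hy hxy
        have hx1 : J x = J0 := (mem_filter.1 hx).2
        have hy1 : J y = J0 := (mem_filter.1 hy).2
        have g1 : ((x.2.1 : ℕ) : ℤ) - ((z.2.1 : ℕ) : ℤ) = ((y.2.1 : ℕ) : ℤ) - ((z.2.1 : ℕ) : ℤ) :=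
          congrArg Prod.fst hxy
        have g2 : u x = u y := congrArg Prod.snd hxy
        have g3 : (x.2.1 : ℕ) = (y.2.1 : ℕ) := by omega
        have g4 : c x = c y := by
          have b1 := hu x
          have b2 := hu y
          rw [← g2] at b2
          have b3 : (c x : K) = (c y : K) := mul_left_cancel₀ (u x).ne_zero (b1.trans b2.symm)
          exact RingOfIntegers.ext b3
        have g5 := hSU x hx1
        have g6 := hSU y hy1
        rw [← g2] at g6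
        have g7 := hsuf3 _ _ _ g5 g6
        have g8 : ∀ j, (x.2.2 j : ℕ) = (y.2.2 j : ℕ) := by
          intro j
          have b1 := congrFun g7 j
          rw [he x, he y, g3] at b1
          push_cast at b1
          omega
        refine Prod.ext (funext fun v => ?_)
          (Prod.ext (Fin.ext g3) (funext fun j => Fin.ext (g8 j)))
        have f1 := hc1 x v.1
        have f2 := hc1 y v.1
        have g9 : ∑ j, ((x.2.2 j : ℕ) : ℝ) * ℓ j = ∑ j, ((y.2.2 j : ℕ) : ℝ) * ℓ j :=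
          sum_congr rfl fun j _ => by rw [g8 j]
        rw [g4, g3, g9] at f1
        rw [BK.ph_t_ne, hnr] at f1 f2
        apply Fin.ext
        by_contra hne
        have f3 : (1 : ℝ) ≤ |((x.1 v : ℕ) : ℝ) - ((y.1 v : ℕ) : ℝ)| := by
          have b1 : (1 : ℤ) ≤ |((x.1 v : ℕ) : ℤ) - ((y.1 v : ℕ) : ℤ)| := by
            apply Int.one_le_abs
            omega
          exact_mod_cast b1
        have f4 : |7 * h * ((x.1 v : ℕ) : ℝ) - 7 * h * ((y.1 v : ℕ) : ℝ)| ≤ 6 * h := by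
          rw [abs_le] at f1 f2 ⊢
          constructor <;> linarith
        rw [← mul_sub, abs_mul, abs_of_pos (by positivity : 0 < 7 * h)] at f4
        have f5 := mul_le_mul_of_nonneg_left f3 (by positivity : 0 ≤ 7 * h)
        linarith
  -- counting
  have hcount : Fintype.card (({w : InfinitePlace K // w ≠ w0} → Fin (M + 1)) × Fin (k0 + 1) ×
      (∀ j : Fin m, Fin (B j + 1))) ≤ hID.toFinset.card * (TS P κ nn A ρ).ncard := by
    rw [← card_univ, card_eq_sum_card_fiberwise (f := fun x => J x) (t := hID.toFinset)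
      (fun x _ => by rw [Set.Finite.coe_toFinset]; exact hJ x)]
    exact (sum_le_card_nsmul _ _ _ hfib).trans (le_of_eq (by rw [smul_eq_mul]))
  have hW : Fintype.card {w : InfinitePlace K // w ≠ w0} = Fintype.card (InfinitePlace K) - 1 := by
    rw [Fintype.card_subtype_compl, Fintype.card_subtype_eq]
  rw [Fintype.card_prod, Fintype.card_prod, Fintype.card_fun, Fintype.card_pi, Fintype.card_fin,
    Fintype.card_fin, hW, ← Set.ncard_eq_toFinset_card _ hID] at hcount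
  simp only [Fintype.card_fin] at hcount
  have hs1 : 1 ≤ Fintype.card (InfinitePlace K) := Fintype.card_pos_iff.2 ⟨w0⟩
  have hs3 : Fintype.card (InfinitePlace K) ≤ 3 := by
    have e1 : (Fintype.card (InfinitePlace K) : ℝ) ≤ 3 := by
      rw [← BK.ph_mult_sum hK]
      calc (Fintype.card (InfinitePlace K) : ℝ) = ∑ w : InfinitePlace K, (1 : ℝ) := by simp
        _ ≤ _ := sum_le_sum fun w _ => InfinitePlace.one_le_mult
    exact_mod_cast e1
  obtain ⟨s', hs'⟩ : ∃ s', Fintype.card (InfinitePlace K) = s' + 1 :=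
    ⟨Fintype.card (InfinitePlace K) - 1, by omega⟩
  rw [hs'] at hcount hs3 ⊢
  rw [Nat.add_sub_cancel] at hcount ⊢
  have hs2 : s' ≤ 2 := by omega
  obtain ⟨T, hT⟩ : ∃ T : ℝ, T = ((TS P κ nn A ρ).ncard : ℝ) := ⟨_, rfl⟩
  rw [← hT]
  have hT0 : 0 ≤ T := by rw [hT]; exact Nat.cast_nonneg _
  have hreal : ((M : ℝ) + 1) ^ s' * ((k0 + 1) * ∏ j, ((B j : ℝ) + 1)) ≤ ν * T := by
    have e1 : ((M : ℝ) + 1) ^ s' * ((k0 + 1) * ∏ j, ((B j : ℝ) + 1)) ≤
        ((BK.ID K (2 * Real.sqrt |(NumberField.discr K : ℝ)|)).ncard : ℝ) * T := by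
      rw [hT]
      exact_mod_cast hcount
    exact e1.trans (mul_le_mul_of_nonneg_right hν hT0)
  have hBpos : 0 ≤ ∏ j, ρ / (10 * ((m : ℝ) + 1) * ℓ j) :=
    prod_nonneg fun j _ => div_nonneg hρ0.le (hden j).le
  have hlow : (ρ / (100 * h)) ^ s' * ((ρ / (10 * A)) * ∏ j, ρ / (10 * ((m : ℝ) + 1) * ℓ j)) ≤
      ν * T := by
    refine le_trans (mul_le_mul (pow_le_pow_left₀ (by positivity) hM2 s')
      (mul_le_mul hk2 (prod_le_prod (fun j _ => div_nonneg hρ0.le (hden j).le)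
        (fun j _ => hB2 j)) hBpos (by positivity)) (mul_nonneg (by positivity) hBpos)
      (by positivity)) hreal
  have hLpos : 0 < ∏ j, ℓ j := prod_pos fun j _ => hℓ0 j
  have e7 : ∏ j, ρ / (10 * ((m : ℝ) + 1) * ℓ j) =
      ρ ^ m / ((10 * ((m : ℝ) + 1)) ^ m * ∏ j, ℓ j) := by
    rw [prod_div_distrib, prod_const, card_univ, Fintype.card_fin, prod_mul_distrib, prod_const,
      card_univ, Fintype.card_fin]
  have e5 : ρ ^ (s' + 1 + m) = (100 ^ s' * 10 * (10 * ((m : ℝ) + 1)) ^ m) *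
      (A * h ^ s' * ∏ j, ℓ j) *
      ((ρ / (100 * h)) ^ s' * ((ρ / (10 * A)) * ∏ j, ρ / (10 * ((m : ℝ) + 1) * ℓ j))) := by
    rw [e7, div_pow, mul_pow 100 h s', pow_add, pow_add]
    field_simp
  rw [e5]
  have e6 : (100 : ℝ) ^ s' * 10 * (10 * ((m : ℝ) + 1)) ^ m ≤
      100000 * (10 * ((m : ℝ) + 1)) ^ m := by
    have h8 : (100 : ℝ) ^ s' ≤ 100 ^ 2 := pow_le_pow_right₀ (by norm_num) hs2
    exact mul_le_mul_of_nonneg_right (by linarith) (by positivity)
  have hpos : 0 ≤ A * h ^ s' * ∏ j, ℓ j := by positivity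
  calc (100 ^ s' * 10 * (10 * ((m : ℝ) + 1)) ^ m) * (A * h ^ s' * ∏ j, ℓ j) *
      ((ρ / (100 * h)) ^ s' * ((ρ / (10 * A)) * ∏ j, ρ / (10 * ((m : ℝ) + 1) * ℓ j)))
      ≤ (100 ^ s' * 10 * (10 * ((m : ℝ) + 1)) ^ m) * (A * h ^ s' * ∏ j, ℓ j) * (ν * T) :=
        mul_le_mul_of_nonneg_left hlow (by positivity)
    _ ≤ (100000 * (10 * ((m : ℝ) + 1)) ^ m) * (A * h ^ s' * ∏ j, ℓ j) * (ν * T) := by
        have hνT : 0 ≤ ν * T := le_trans (by positivity) hlow
        exact mul_le_mul_of_nonneg_right (mul_le_mul_of_nonneg_right e6 hpos) hνT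
    _ = 100000 * (10 * ((m : ℝ) + 1)) ^ m * ν * A * h ^ s' * (∏ j, ℓ j) * T := by ring

end Pool.Helper99.SZ
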